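import Mathlib
import Pool.Agent.H765R2.AR6

set_option autoImplicit false

open Complex Metric Filter Real
open scoped Topology ComplexConjugate
open Pool.Agent.H765R2.Hank

namespace Pool.Agent.Results.MP_0d9f0f_an.VanishingHankel

/-- There is a function `χ` in `B_a(ℂ, ℂ) ∩ B⁰_Sz(ℂ, ℂ)` for which the Hankel operator `Γ` is zero
and condition (4) fails. -/
theorem result : ∃ χ : ℂ → ℂ, InBa χ ∧ InSz χ ∧ (∀ n : ℕ, 1 ≤ n → gam χ n = 0) ∧
    ¬ CondFour χ := by
  have hg := Pool.Agent.H765R2.AR.gam_zero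
  refine ⟨Pool.Agent.H765R2.AR.chi, ⟨Pool.Agent.H765R2.AR.chi_schur,
    Pool.Agent.H765R2.AR.chi_zero, Pool.Agent.H765R2.AR.chi_AC⟩,
    Pool.Agent.H765R2.AR.chi_InSz, hg, ?_⟩
  intro hfour
  obtain ⟨z, hz, hne⟩ := Pool.Agent.H765R2.AR.chi_ne_zero
  set e0 : ℕ → ℂ := fun k => if k = 0 then 1 else 0 with he0
  have hHan : ∀ (g : ℕ → ℂ), (∀ n, 1 ≤ n → g n = 0) → ∀ u : ℕ → ℂ, ∀ j, Han g u j = 0 := by
    intro g h u j
    unfold Han
    have : (fun k => g (j + k + 1) * u k) = fun _ => 0 := by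
      funext k
      rw [h _ (by omega), zero_mul]
    rw [this, tsum_zero]
  have hcg : ∀ n, 1 ≤ n → (fun n => conj (gam Pool.Agent.H765R2.AR.chi n)) n = 0 := by
    intro n hn
    simp only
    rw [hg n hn, map_zero]
  have hccg : ∀ n, 1 ≤ n →
      (fun n => conj ((fun n => conj (gam Pool.Agent.H765R2.AR.chi n)) n)) n = 0 := by
    intro n hn
    simp only
    rw [hg n hn, map_zero, map_zero]
  have hsum : Summable (fun k => ‖e0 k‖ ^ 2) := by
    apply summable_of_ne_finset_zero (s := {0})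
    intro k hk
    rw [Finset.mem_singleton] at hk
    simp [he0, hk]
  have h1 := hfour (fun _ => e0) (fun _ => e0) (fun ρ _ _ => ⟨hsum, fun j => by
      rw [hHan _ hcg, mul_zero, sub_zero]⟩)
    (fun ρ _ _ => ⟨hsum, fun j => by
      rw [hHan _ hccg, mul_zero, sub_zero]⟩) z hz
  have h2 : (fun ρ : ℝ => (Pp e0 z)⁻¹ * qp (gam Pool.Agent.H765R2.AR.chi) ρ e0 z) =
      fun _ => 0 := by
    funext ρ
    have : qp (gam Pool.Agent.H765R2.AR.chi) ρ e0 z = 0 := by
      unfold qp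
      have h3 : (fun k => Han (fun n => conj (gam Pool.Agent.H765R2.AR.chi n)) e0 k * z ^ k) =
          fun _ => 0 := by
        funext k
        rw [hHan _ hcg, zero_mul]
      rw [h3, tsum_zero, mul_zero, zero_div]
    rw [this, mul_zero]
  simp only [h2] at h1
  exact hne (tendsto_nhds_unique h1 tendsto_const_nhds)

end Pool.Agent.Results.MP_0d9f0f_an.VanishingHankel
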